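import Mathlib

set_option autoImplicit false

/-!
# A solution of `2 ^ (n - 2) ≡ 1 (mod n)` with last digit `9`

`n = 1210344599 = 73 * 337 * 49199`.  The orders of `2` modulo the three primes are `9`, `21` and
`24599`, and they divide `n - 2 = 3 ^ 2 * 7 * 11 * 17 * 71 * 1447`.
-/

namespace Pool.Agent.Results.MP_aad82b_nt.LastDigitNine

/-- if the order of `2` modulo `p` divides `m` then `p ∣ 2 ^ m - 1` -/
theorem dvd_of_order {p d m : ℕ} (h : p ∣ 2 ^ d - 1) (hd : d ∣ m) : p ∣ 2 ^ m - 1 := by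
  obtain ⟨k, rfl⟩ := hd
  rw [pow_mul]
  exact h.trans (Nat.sub_one_dvd_pow_sub_one _ _)

/-- There is a positive integer `n` with last decimal digit `9` and `n ∣ 2 ^ (n - 2) - 1`; one is
`n = 1210344599 = 73 * 337 * 49199`. -/
theorem result :
    (∃ n : ℕ, 2 ≤ n ∧ n % 10 = 9 ∧ n ∣ 2 ^ (n - 2) - 1) ∧
      1210344599 ∣ 2 ^ (1210344599 - 2) - 1 := by
  have h : (1210344599 : ℕ) ∣ 2 ^ (1210344599 - 2) - 1 := by
    have h1 : (73 : ℕ) ∣ 2 ^ (1210344599 - 2) - 1 :=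
      dvd_of_order (d := 9) (by norm_num) (by norm_num)
    have h2 : (337 : ℕ) ∣ 2 ^ (1210344599 - 2) - 1 :=
      dvd_of_order (d := 21) (by norm_num) (by norm_num)
    have h3 : (49199 : ℕ) ∣ 2 ^ (1210344599 - 2) - 1 :=
      dvd_of_order (d := 24599) (by rw [Nat.dvd_iff_mod_eq_zero]; decide +kernel) (by norm_num)
    have h4 : (1210344599 : ℕ) = 73 * 337 * 49199 := by norm_num
    rw [h4] at h1 h2 h3 ⊢
    exact (Nat.Coprime.mul_dvd_of_dvd_of_dvd (by norm_num)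
      (Nat.Coprime.mul_dvd_of_dvd_of_dvd (by norm_num) h1 h2) h3)
  exact ⟨⟨1210344599, by norm_num, by norm_num, h⟩, h⟩

end Pool.Agent.Results.MP_aad82b_nt.LastDigitNine
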